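import Pool.Agent.L7h38.BQ.Stm

/-!
# Project BQ: S_CC and S_CNT, the number of the standard exponents
-/

set_option autoImplicit false

namespace Pool.Agent.L7h35.BQ

open MvPolynomial Finset
open Pool.Agent.L7h38.BQ

theorem s_CC : S_CC := by
  intro n
  induction n with
  | zero =>
    intro K m
    simp only [cc]
    simp
  | succ n ih =>
    intro K m
    have e : (fun s => K s - 1) ∘ Fin.succ = fun s => (K ∘ Fin.succ) s - 1 := rfl
    simp only [cc]
    rw [e]
    have h1 := ih (K ∘ Fin.succ) m
    rcases m with _ | m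
    · simp only [Nat.cast_zero, zero_mul, zero_add]
      simp only [zero_add] at h1
      push_cast
      rw [h1]; ring
    · have h2 := ih (K ∘ Fin.succ) m
      simp only [Nat.add_sub_cancel]
      push_cast
      rw [h2, h1]; ring

/-- the number of the standard exponents as a type -/
theorem st_succ {I : Type} [DecidableEq I] (n : ℕ) (β : Fin (n + 1) → I) (κ : I → ℕ) (m : ℕ)
    (b : Fin (n + 1) → ℕ) : St (n + 1) β κ m b ↔ b 0 < κ (β 0) ∧
      St n (β ∘ Fin.succ) (Function.update κ (β 0) (κ (β 0) - 1)) (if b 0 < m then m - 1 else m)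
        (b ∘ Fin.succ) := Iff.rfl

def stEquiv {I : Type} [DecidableEq I] (n : ℕ) (β : Fin (n + 1) → I) (κ : I → ℕ) (m : ℕ) :
    {b : Fin (n + 1) → ℕ // St (n + 1) β κ m b} ≃
      Σ c : Fin (κ (β 0)), {b : Fin n → ℕ // St n (β ∘ Fin.succ)
        (Function.update κ (β 0) (κ (β 0) - 1)) (if (c : ℕ) < m then m - 1 else m) b} where
  toFun b := ⟨⟨b.1 0, b.2.1⟩, ⟨b.1 ∘ Fin.succ, b.2.2⟩⟩
  invFun x := ⟨Fin.cons (x.1 : ℕ) x.2.1, by
    refine ⟨?_, ?_⟩
    · simp
    · have : (Fin.cons (x.1 : ℕ) x.2.1 : Fin (n + 1) → ℕ) ∘ Fin.succ = x.2.1 := by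
        funext i; simp
      rw [this]
      simpa using x.2.2⟩
  left_inv b := by
    apply Subtype.ext
    funext i
    refine Fin.cases ?_ (fun i => ?_) i <;> simp
  right_inv x := by
    rcases x with ⟨⟨c, hc⟩, ⟨b, hb⟩⟩
    rfl

theorem s_CNT : S_CNT := by
  classical
  intro I _ n
  induction n with
  | zero =>
    intro β κ m hm
    refine ⟨Set.toFinite _, ?_⟩
    by_cases h : m = 0
    · subst h
      have : Nat.card {b : Fin 0 → ℕ // St 0 β κ 0 b} = 1 := by
        rw [Nat.card_eq_one_iff_unique]
        refine ⟨⟨fun a b => Subtype.ext (Subsingleton.elim _ _)⟩, ⟨⟨fun i => 0, rfl⟩⟩⟩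
      rw [this]; simp [cc]
    · have : Nat.card {b : Fin 0 → ℕ // St 0 β κ m b} = 0 := by
        rw [Nat.card_eq_zero]
        left
        exact ⟨fun b => h b.2⟩
      rw [this]; simp [cc, h]
  | succ n ih =>
    intro β κ m hm
    set k0 := κ (β 0) with hk0
    set κ' := Function.update κ (β 0) (k0 - 1) with hκ'
    -- the condition is inherited
    have hinh : ∀ c : Fin k0, ∀ i, (if (c : ℕ) < m then m - 1 else m) ≤ κ' i := by
      intro c i
      have hc := c.2
      have h0 := hm (β 0)
      have hi := hm i
      by_cases hib : i = β 0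
      · rw [hκ', hib, Function.update_self]
        split_ifs <;> omega
      · rw [hκ', Function.update_of_ne hib]
        split_ifs <;> omega
    have hfin : ∀ c : Fin k0, Finite {b : Fin n → ℕ // St n (β ∘ Fin.succ) κ'
        (if (c : ℕ) < m then m - 1 else m) b} := fun c =>
      ((ih (β ∘ Fin.succ) κ' _ (hinh c)).1).to_subtype
    have hcard := Nat.card_congr (stEquiv n β κ m)
    have hfin' : Finite (Σ c : Fin (κ (β 0)), {b : Fin n → ℕ // St n (β ∘ Fin.succ)
        (Function.update κ (β 0) (κ (β 0) - 1)) (if (c : ℕ) < m then m - 1 else m) b}) := by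
      have := hfin
      infer_instance
    refine ⟨?_, ?_⟩
    · have h0 : Finite {b : Fin (n + 1) → ℕ // St (n + 1) β κ m b} :=
        Finite.of_equiv _ (stEquiv n β κ m).symm
      exact h0
    · have h1 : Nat.card (Σ c : Fin (κ (β 0)), {b : Fin n → ℕ // St n (β ∘ Fin.succ)
        (Function.update κ (β 0) (κ (β 0) - 1)) (if (c : ℕ) < m then m - 1 else m) b}) =
          ∑ c : Fin k0, Nat.card {b : Fin n → ℕ // St n (β ∘ Fin.succ) κ'
            (if (c : ℕ) < m then m - 1 else m) b} := by
        have := hfin
        exact Nat.card_sigma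
      rw [hcard, h1]
      have h2 : ∑ c : Fin k0, Nat.card {b : Fin n → ℕ // St n (β ∘ Fin.succ) κ'
            (if (c : ℕ) < m then m - 1 else m) b} =
          m * Nat.card {b : Fin n → ℕ // St n (β ∘ Fin.succ) κ' (m - 1) b} +
            (k0 - m) * Nat.card {b : Fin n → ℕ // St n (β ∘ Fin.succ) κ' m b} := by
        rw [Fin.sum_univ_eq_sum_range (fun c => Nat.card {b : Fin n → ℕ //
          St n (β ∘ Fin.succ) κ' (if c < m then m - 1 else m) b}) k0,
          ← Finset.sum_range_add_sum_Ico _ (hm (β 0))]
        congr 1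
        · rw [Finset.sum_congr rfl (g := fun _ => Nat.card {b : Fin n → ℕ //
            St n (β ∘ Fin.succ) κ' (m - 1) b})]
          · simp
          · intro c hc
            rw [if_pos (Finset.mem_range.1 hc)]
        · rw [Finset.sum_congr rfl (g := fun _ => Nat.card {b : Fin n → ℕ //
            St n (β ∘ Fin.succ) κ' m b})]
          · rw [Finset.sum_const, Nat.card_Ico, smul_eq_mul]
          · intro c hc
            rw [if_neg (not_lt.2 (Finset.mem_Ico.1 hc).1)]
      rw [h2]
      have hmk : m ≤ k0 := hm (β 0)
      set K : Fin (n + 1) → ℤ := fun s => (κ (β s) : ℤ) -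
        ((Finset.univ.filter (fun s' : Fin (n + 1) => s' < s ∧ β s' = β s)).card : ℤ) with hK
      have hK0 : K 0 = k0 := by
        simp only [hK]
        have : (Finset.univ.filter (fun s' : Fin (n + 1) => s' < 0 ∧ β s' = β 0)) = ∅ := by
          apply Finset.filter_eq_empty_iff.2
          intro s _ h
          exact absurd h.1 (Fin.not_lt_zero s)
        rw [this]; simp [hk0]
      have hcc : cc (n + 1) K m = m * cc n (K ∘ Fin.succ) (m - 1) +
          (K 0 - m) * cc n (K ∘ Fin.succ) m := rfl
      rw [hcc, hK0]
      rcases Nat.eq_zero_or_pos k0 with hz | hpos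
      · have hm0 : m = 0 := by omega
        rw [hz, hm0]; simp
      · have hKs : K ∘ Fin.succ = fun s => (κ' ((β ∘ Fin.succ) s) : ℤ) -
            ((Finset.univ.filter (fun s' : Fin n => s' < s ∧
              (β ∘ Fin.succ) s' = (β ∘ Fin.succ) s)).card : ℤ) := by
          funext s
          simp only [hK, Function.comp_apply]
          have h3 : (Finset.univ.filter (fun s' : Fin (n + 1) => s' < s.succ ∧ β s' = β s.succ)).card
              = (if β 0 = β s.succ then 1 else 0) +
                (Finset.univ.filter (fun s' : Fin n => s' < s ∧ β s'.succ = β s.succ)).card := by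
            rw [Finset.card_filter, Fin.sum_univ_succ, Finset.card_filter]
            congr 1
            · simp [Fin.succ_pos]
            · apply Finset.sum_congr rfl
              intro s' _
              simp [Fin.succ_lt_succ_iff]
          rw [h3]
          by_cases h4 : β 0 = β s.succ
          · rw [if_pos h4, hκ', ← h4, Function.update_self]
            push_cast
            rw [Nat.cast_sub hpos]
            push_cast
            ring
          · rw [if_neg h4, hκ', Function.update_of_ne (Ne.symm h4)]
            simp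
        rw [hKs]
        push_cast
        congr 1
        · rcases Nat.eq_zero_or_pos m with h0 | h0
          · rw [h0]; simp
          · rw [(ih (β ∘ Fin.succ) κ' (m - 1) ?_).2]
            intro i
            have := hinh ⟨0, hpos⟩ i
            rwa [if_pos h0] at this
        · rcases Nat.lt_or_ge m k0 with h0 | h0
          · rw [(ih (β ∘ Fin.succ) κ' m ?_).2]
            · rw [Nat.cast_sub hmk]
            · intro i
              have := hinh ⟨m, h0⟩ i
              rwa [if_neg (lt_irrefl m)] at this
          · have : k0 = m := le_antisymm h0 hmk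
            rw [this]; simp

end Pool.Agent.L7h35.BQ
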