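import Pool.Agent.L7h38.BQ.Stm

/-!
# Project BQ: recursions for the complete homogeneous and the elementary symmetric polynomials
-/

set_option autoImplicit false

namespace Pool.Agent.L7h35.BQ

open MvPolynomial Finset
open Pool.Agent.L7h38.BQ

theorem hs_zero {σ : Type} [DecidableEq σ] (A : Finset σ) : hs A 0 = 1 := by
  simp [hs]

theorem hs_empty {σ : Type} [DecidableEq σ] (j : ℕ) (hj : j ≠ 0) : hs (∅ : Finset σ) j = 0 := by
  simp [hs, hj]

theorem hs_insert {σ : Type} [DecidableEq σ] (A : Finset σ) (y : σ) (hy : y ∉ A) (j : ℕ) :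
    hs (insert y A) (j + 1) = hs A (j + 1) + X y * hs (insert y A) j := by
  have h1 : hs (insert y A) (j + 1) =
      ∑ a ∈ ((insert y A).finsuppAntidiag (j + 1)).filter (fun a => a y = 0), monomial a (1 : ℚ) +
      ∑ a ∈ ((insert y A).finsuppAntidiag (j + 1)).filter (fun a => ¬ a y = 0),
        monomial a (1 : ℚ) := by
    rw [Finset.sum_filter_add_sum_filter_not]; rfl
  have h2 : ((insert y A).finsuppAntidiag (j + 1)).filter (fun a => a y = 0) =
      A.finsuppAntidiag (j + 1) := by
    ext a
    simp only [mem_filter, mem_finsuppAntidiag]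
    constructor
    · rintro ⟨⟨h3, h4⟩, h5⟩
      refine ⟨?_, ?_⟩
      · rw [Finset.sum_insert hy, h5, zero_add] at h3
        exact h3
      · intro s hs
        rcases Finset.mem_insert.1 (h4 hs) with h | h
        · subst h
          exact absurd h5 (Finsupp.mem_support_iff.1 hs)
        · exact h
    · rintro ⟨h3, h4⟩
      have h5 : a y = 0 := by
        by_contra h
        exact hy (h4 (Finsupp.mem_support_iff.2 h))
      refine ⟨⟨?_, h4.trans (Finset.subset_insert _ _)⟩, h5⟩
      rw [Finset.sum_insert hy, h5, zero_add, h3]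
  have h3 : ∑ a ∈ ((insert y A).finsuppAntidiag (j + 1)).filter (fun a => ¬ a y = 0),
        monomial a (1 : ℚ) = X y * hs (insert y A) j := by
    rw [hs, Finset.mul_sum]
    symm
    apply Finset.sum_bij (fun a _ => Finsupp.single y 1 + a)
    · intro a ha
      rw [mem_finsuppAntidiag] at ha
      rw [mem_filter, mem_finsuppAntidiag]
      refine ⟨⟨?_, ?_⟩, ?_⟩
      · have : ∑ i ∈ insert y A, (Finsupp.single y 1 : σ →₀ ℕ) i = 1 := by
          rw [Finset.sum_eq_single y]
          · simp
          · intro b _ hb
            simp [Ne.symm hb]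
          · intro h
            exact absurd (Finset.mem_insert_self _ _) h
        have ha1 : ∑ i ∈ insert y A, a i = j := ha.1
        have e : ∑ i ∈ insert y A, (Finsupp.single y 1 + a : σ →₀ ℕ) i =
            ∑ i ∈ insert y A, (Finsupp.single y 1 : σ →₀ ℕ) i + ∑ i ∈ insert y A, a i := by
          rw [← Finset.sum_add_distrib]; rfl
        show ∑ i ∈ insert y A, (Finsupp.single y 1 + a : σ →₀ ℕ) i = j + 1
        omega
      · intro s hs
        rcases Finset.mem_union.1 (Finsupp.support_add hs) with h | h
        · have := Finsupp.support_single_subset h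
          rw [Finset.mem_singleton] at this
          rw [this]
          exact Finset.mem_insert_self _ _
        · exact ha.2 h
      · simp
    · intro a _ b _ h
      exact add_left_cancel h
    · intro b hb
      rw [mem_filter, mem_finsuppAntidiag] at hb
      obtain ⟨⟨h4, h5⟩, h6⟩ := hb
      have h7 : Finsupp.single y 1 ≤ b := by
        rw [Finsupp.single_le_iff]
        omega
      refine ⟨b - Finsupp.single y 1, ?_, add_tsub_cancel_of_le h7⟩
      rw [mem_finsuppAntidiag]
      refine ⟨?_, ?_⟩
      · have h8 : ∑ i ∈ insert y A, b i = ∑ i ∈ insert y A, (Finsupp.single y 1 : σ →₀ ℕ) i +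
            ∑ i ∈ insert y A, (b - Finsupp.single y 1 : σ →₀ ℕ) i := by
          rw [← Finset.sum_add_distrib]
          apply Finset.sum_congr rfl
          intro i _
          rw [← Finsupp.add_apply, add_tsub_cancel_of_le h7]
        have h9 : ∑ i ∈ insert y A, (Finsupp.single y 1 : σ →₀ ℕ) i = 1 := by
          rw [Finset.sum_eq_single y]
          · simp
          · intro b _ hb
            simp [Ne.symm hb]
          · intro h
            exact absurd (Finset.mem_insert_self _ _) h
        have h4' : ∑ i ∈ insert y A, b i = j + 1 := h4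
        show ∑ i ∈ insert y A, (b - Finsupp.single y 1 : σ →₀ ℕ) i = j
        omega
      · exact (Finsupp.support_tsub).trans h5
    · intro a _
      rw [X, monomial_mul, one_mul]
  rw [h1, h2, h3]
  rfl

theorem rename_hs {σ τ : Type} [DecidableEq σ] [DecidableEq τ] (f : σ ↪ τ) (A : Finset σ) (j : ℕ) :
    rename f (hs A j) = hs (A.map f) j := by
  induction A using Finset.induction_on generalizing j with
  | empty =>
    rcases Nat.eq_zero_or_pos j with h | h
    · rw [h, hs_zero, hs_zero, map_one]
    · rw [hs_empty _ (by omega), Finset.map_empty, hs_empty _ (by omega), map_zero]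
  | insert y A hy ih =>
    induction j with
    | zero => rw [hs_zero, hs_zero, map_one]
    | succ j ihj =>
      rw [Finset.map_insert] at ihj ⊢
      rw [hs_insert A y hy j, hs_insert (A.map f) (f y) (by simpa using hy) j, map_add, map_mul,
        ih, ihj, rename_X]

/-- the recursion of the elementary symmetric polynomials -/
theorem esymm_succ (n j : ℕ) : esymm (Fin (n + 1)) ℚ (j + 1) =
    rename Fin.succ (esymm (Fin n) ℚ (j + 1)) + X 0 * rename Fin.succ (esymm (Fin n) ℚ j) := by
  have h0 : (univ : Finset (Fin (n + 1))) = insert 0 (univ.map (Fin.succEmb n)) := by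
    rw [Fin.univ_succ, Finset.cons_eq_insert]
    rfl
  have h1 : (0 : Fin (n + 1)) ∉ (univ.map (Fin.succEmb n) : Finset (Fin (n + 1))) := by
    simp [Fin.succ_ne_zero]
  have hren : ∀ i : ℕ, rename Fin.succ (esymm (Fin n) ℚ i) =
      ∑ t ∈ powersetCard i (univ.map (Fin.succEmb n) : Finset (Fin (n + 1))),
        ∏ s ∈ t, (X s : MvPolynomial (Fin (n + 1)) ℚ) := by
    intro i
    rw [esymm, map_sum, Finset.powersetCard_map, Finset.sum_map]
    apply Finset.sum_congr rfl
    intro t _
    rw [map_prod]
    simp [Finset.mapEmbedding, Finset.prod_map]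
  rw [hren, hren, esymm, h0, Finset.powersetCard_succ_insert h1, Finset.sum_union, Finset.mul_sum]
  · congr 1
    rw [Finset.sum_image]
    · apply Finset.sum_congr rfl
      intro t ht
      rw [Finset.prod_insert]
      intro h
      exact h1 ((Finset.mem_powersetCard.1 ht).1 h)
    · intro s hs t ht h
      have hs' : (0 : Fin (n + 1)) ∉ s := fun h' => h1 ((Finset.mem_powersetCard.1 hs).1 h')
      have ht' : (0 : Fin (n + 1)) ∉ t := fun h' => h1 ((Finset.mem_powersetCard.1 ht).1 h')
      rw [← Finset.erase_insert hs', ← Finset.erase_insert ht', h]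
  · rw [Finset.disjoint_left]
    intro t ht ht'
    obtain ⟨s, _, rfl⟩ := Finset.mem_image.1 ht'
    exact h1 ((Finset.mem_powersetCard.1 ht).1 (Finset.mem_insert_self _ _))

end Pool.Agent.L7h35.BQ
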