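import Pool.Agent.L7h38.BQ.Stm

/-!
# Project BQ: S_ORB, the Burnside count of sorted functions
-/

set_option autoImplicit false

namespace Pool.Agent.L7h35.BQ

open Finset
open Pool.Agent.L7h38.BQ

theorem pai {α : Type} (f : Equiv.Perm α) (x : α) : f (f⁻¹ x) = x := f.apply_symm_apply x

theorem pia {α : Type} (f : Equiv.Perm α) (x : α) : f⁻¹ (f x) = x := f.symm_apply_apply x

/-- the sorted function with the differences `ν` -/
def srt {r d : ℕ} (ν : Fin r × Fin d → ℕ) (s : Fin r × Fin d) : ℕ :=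
  ∑ l ∈ univ.filter (fun l => s.2 ≤ l), ν (s.1, l)

theorem srt_step {r d : ℕ} (ν : Fin r × Fin d → ℕ) (i : Fin r) (l : Fin d) :
    srt ν (i, l) = ν (i, l) + (if h : (l : ℕ) + 1 < d then srt ν (i, ⟨l + 1, h⟩) else 0) := by
  have h1 : univ.filter (fun l' : Fin d => l ≤ l') =
      insert l (univ.filter (fun l' : Fin d => l < l')) := by
    ext l'
    simp only [mem_filter, mem_univ, true_and, mem_insert]
    constructor
    · intro h
      rcases h.eq_or_lt with h | h
      · exact Or.inl h.symm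
      · exact Or.inr h
    · rintro (h | h)
      · exact h ▸ le_rfl
      · exact h.le
  simp only [srt]
  rw [h1, Finset.sum_insert (by simp)]
  congr 1
  split_ifs with h
  · apply Finset.sum_congr _ (fun _ _ => rfl)
    ext l'
    simp only [mem_filter, mem_univ, true_and]
    rw [Fin.lt_def, Fin.le_def]
    exact Nat.succ_le_iff.symm
  · apply Finset.sum_eq_zero
    intro l' hl'
    have h2 := (Finset.mem_filter.1 hl').2
    rw [Fin.lt_def] at h2
    have := l'.2
    omega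

theorem srt_anti {r d : ℕ} (ν : Fin r × Fin d → ℕ) (i : Fin r) :
    Antitone (fun l => srt ν (i, l)) := by
  intro l l' h
  simp only [srt]
  apply Finset.sum_le_sum_of_subset
  intro x hx
  simp only [mem_filter, mem_univ, true_and] at hx ⊢
  exact h.trans hx

theorem srt_inj {r d : ℕ} (ν ν' : Fin r × Fin d → ℕ) (h : srt ν = srt ν') : ν = ν' := by
  funext s
  obtain ⟨i, l⟩ := s
  have h1 := srt_step ν i l
  have h2 := srt_step ν' i l
  rw [h] at h1
  omega

theorem srt_surj {r d : ℕ} (h : Fin r × Fin d → ℕ) (hh : ∀ i, Antitone (fun l => h (i, l))) :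
    ∃ ν, srt ν = h := by
  refine ⟨fun s => h s - (if hl : (s.2 : ℕ) + 1 < d then h (s.1, ⟨s.2 + 1, hl⟩) else 0), ?_⟩
  have key : ∀ (c : ℕ) (i : Fin r) (l : Fin d), (l : ℕ) + c + 1 = d →
      srt (fun s : Fin r × Fin d => h s -
        (if hl : (s.2 : ℕ) + 1 < d then h (s.1, ⟨s.2 + 1, hl⟩) else 0)) (i, l) = h (i, l) := by
    intro c
    induction c with
    | zero =>
      intro i l hl
      rw [srt_step]
      have h1 : ¬ ((l : ℕ) + 1 < d) := by omega
      simp only
      rw [dif_neg h1, dif_neg h1]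
      rfl
    | succ c ih =>
      intro i l hl
      have h1 : (l : ℕ) + 1 < d := by omega
      rw [srt_step]
      simp only
      rw [dif_pos h1, dif_pos h1, ih i ⟨l + 1, h1⟩ (by simp only; omega)]
      apply Nat.sub_add_cancel
      exact hh i (by rw [Fin.le_def]; simp)
  funext s
  obtain ⟨i, l⟩ := s
  exact key (d - l - 1) i l (by have := l.2; omega)

theorem srt_sum {r d : ℕ} (ν : Fin r × Fin d → ℕ) :
    ∑ s, srt ν s = ∑ s, ((s.2 : ℕ) + 1) * ν s := by
  rw [Fintype.sum_prod_type, Fintype.sum_prod_type]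
  apply Finset.sum_congr rfl
  intro i _
  simp only [srt, Finset.sum_filter]
  rw [Finset.sum_comm]
  apply Finset.sum_congr rfl
  intro l _
  rw [← Finset.sum_filter, Finset.sum_const, smul_eq_mul]
  congr 1
  have : univ.filter (fun x : Fin d => x ≤ l) = Finset.Iic l := by
    ext x; simp
  rw [this, Fin.card_Iic]

theorem srt_comp {r d : ℕ} (τ : Equiv.Perm (Fin r)) (ν : Fin r × Fin d → ℕ) (s : Fin r × Fin d) :
    srt ν (Equiv.prodCongr τ (Equiv.refl (Fin d)) s) =
      srt (fun s => ν (Equiv.prodCongr τ (Equiv.refl (Fin d)) s)) s := rfl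

theorem exists_sort {r d : ℕ} (μ : Fin r × Fin d → ℕ) :
    ∃ (w : BP r d) (ν : Fin r × Fin d → ℕ), ∀ s, μ s = srt ν (w.1 s) := by
  let σ : Fin r → Equiv.Perm (Fin d) := fun i => Tuple.sort (fun l => OrderDual.toDual (μ (i, l)))
  let W : Equiv.Perm (Fin r × Fin d) := Equiv.prodCongrRight σ
  have hW : ∀ s, (W s).1 = s.1 := fun s => rfl
  obtain ⟨ν, hν⟩ := srt_surj (fun s => μ (W s)) (by
    intro i l l' h
    exact Tuple.monotone_sort (fun l => OrderDual.toDual (μ (i, l))) h)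
  refine ⟨⟨W⁻¹, ?_⟩, ν, ?_⟩
  · intro s
    have := hW (W⁻¹ s)
    rw [pai] at this
    exact this.symm
  · intro s
    rw [hν]
    simp

theorem sort_unique {r d : ℕ} (ν ν' : Fin r × Fin d → ℕ) (v : BP r d)
    (h : ∀ s, srt ν s = srt ν' (v.1 s)) : ν = ν' := by
  apply srt_inj
  funext s
  obtain ⟨i, l⟩ := s
  have hinj : Function.Injective (fun l : Fin d => (v.1 (i, l)).2) := by
    intro a b hab
    have h1 : v.1 (i, a) = v.1 (i, b) := by
      apply Prod.ext
      · rw [v.2, v.2]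
      · exact hab
    have h2 := v.1.injective h1
    exact (Prod.mk.inj h2).2
  let vi : Equiv.Perm (Fin d) := Equiv.ofBijective _ (Finite.injective_iff_bijective.1 hinj)
  have hvi : ∀ l, v.1 (i, l) = (i, vi l) := by
    intro l
    apply Prod.ext
    · rw [v.2]
    · rfl
  have h1 : Monotone ((fun l => OrderDual.toDual (srt ν' (i, l))) ∘ vi) := by
    intro a b hab
    have := srt_anti ν i hab
    simp only at this
    rw [h, h, hvi, hvi] at this
    exact this
  have h2 : Monotone ((fun l => OrderDual.toDual (srt ν' (i, l))) ∘ (1 : Equiv.Perm (Fin d))) := by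
    intro a b hab
    exact srt_anti ν' i hab
  have h3 := congrFun (Tuple.unique_monotone h1 h2) l
  have h4 : srt ν' (i, vi l) = srt ν' (i, l) := h3
  rw [h, hvi, h4]

theorem s_ORB : S_ORB := by
  classical
  intro r d g τ hg
  set g0 : Equiv.Perm (Fin r × Fin d) := Equiv.prodCongr τ (Equiv.refl (Fin d)) with hg0
  have hg0' : ∀ s, (g0 s).1 = τ s.1 := fun s => rfl
  have hgi : ∀ s, (g⁻¹ s).1 = τ⁻¹ s.1 := by
    intro s
    rw [Equiv.Perm.eq_inv_iff_eq, ← hg, pai]
  have hg0i : ∀ s, (g0⁻¹ s).1 = τ⁻¹ s.1 := by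
    intro s
    rw [Equiv.Perm.eq_inv_iff_eq, ← hg0', pai]
  have hinv : ∀ (u : BP r d) s, (u.1⁻¹ s).1 = s.1 := by
    intro u s
    have := u.2 (u.1⁻¹ s)
    rw [pai] at this
    exact this.symm
  -- the choices
  choose w ν hw using (exists_sort (r := r) (d := d))
  have huniq : ∀ (μ : Fin r × Fin d → ℕ) (ν' : Fin r × Fin d → ℕ) (n : BP r d),
      (∀ s, μ s = srt ν' (n.1 s)) → ν μ = ν' := by
    intro μ ν' n h
    apply sort_unique (ν μ) ν' ⟨n.1 * (w μ).1⁻¹, ?_⟩
    · intro s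
      have h1 := hw μ ((w μ).1⁻¹ s)
      rw [pai] at h1
      rw [← h1, h]
      rfl
    · intro s
      rw [Equiv.Perm.mul_apply, n.2, hinv]
  -- the three identities
  have hA : ∀ (u : BP r d) (μ : Fin r × Fin d → ℕ), (∀ s, μ ((u.1 * g) s) = μ s) →
      ν μ = fun s => ν μ (g0 s) := by
    intro u μ hμ
    apply huniq μ _ ⟨g0⁻¹ * (w μ).1 * u.1 * g, ?_⟩
    · intro s
      have h1 : srt (fun s => ν μ (g0 s)) ((g0⁻¹ * (w μ).1 * u.1 * g) s) =
          srt (ν μ) (g0 ((g0⁻¹ * (w μ).1 * u.1 * g) s)) := rfl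
      show μ s = srt (fun s => ν μ (g0 s)) ((g0⁻¹ * (w μ).1 * u.1 * g) s)
      rw [h1]
      simp only [Equiv.Perm.mul_apply]
      rw [pai, ← hw]
      exact (hμ s).symm
    · intro s
      simp only [Equiv.Perm.mul_apply]
      rw [hg0i, (w μ).2, u.2, hg, pia]
  have hst : ∀ (ν' : Fin r × Fin d → ℕ), (∀ s, ν' (g0 s) = ν' s) → ∀ s,
      srt ν' (g0 s) = srt ν' s := by
    intro ν' h s
    have h1 : srt ν' (g0 s) = srt (fun s => ν' (g0 s)) s := rfl
    rw [h1]
    congr 1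
    funext x
    exact h x
  have hB : ∀ (n : BP r d) (ν' : Fin r × Fin d → ℕ), (∀ s, ν' (g0 s) = ν' s) →
      ∀ s, (fun s => srt ν' (n.1 s)) (((w (fun s => srt ν' (n.1 s))).1⁻¹ * n.1 *
          (w (fun s => srt ν' (n.1 s))).1⁻¹ * g0 * (w (fun s => srt ν' (n.1 s))).1 * g⁻¹ * g) s) =
        srt ν' (n.1 s) := by
    intro n ν' hν' s
    set μ : Fin r × Fin d → ℕ := fun s => srt ν' (n.1 s) with hμ
    have h1 : ν μ = ν' := huniq μ ν' n (fun s => rfl)
    have h2 : ∀ s, μ s = srt ν' ((w μ).1 s) := by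
      intro s
      have := hw μ s
      rwa [h1] at this
    simp only [Equiv.Perm.mul_apply]
    rw [pia]
    show μ _ = μ s
    rw [h2, pai]
    show μ _ = μ s
    rw [h2, pai, hst ν' hν', ← h2]
  have hC : ∀ (u : BP r d) (μ : Fin r × Fin d → ℕ), (∀ s, μ ((u.1 * g) s) = μ s) →
      (fun s => srt (ν μ) (((w μ).1 * u.1 * g * (w μ).1⁻¹ * g0⁻¹ * (w μ).1) s)) = μ := by
    intro u μ hμ
    have h0 := hA u μ hμ
    have h1 : ∀ s, ν μ (g0 s) = ν μ s := fun s => (congrFun h0 s).symm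
    funext s
    simp only [Equiv.Perm.mul_apply]
    rw [← hw]
    have h2 := hμ ((w μ).1⁻¹ (g0⁻¹ ((w μ).1 s)))
    simp only [Equiv.Perm.mul_apply] at h2
    rw [h2, hw μ ((w μ).1⁻¹ (g0⁻¹ ((w μ).1 s))), pai]
    have h3 := hst _ h1 (g0⁻¹ ((w μ).1 s))
    rw [pai] at h3
    rw [← h3, ← hw]
  ext i
  rw [finsum_eq_sum_of_fintype, map_sum]
  simp only [FixS, PowerSeries.coeff_mk, map_smul, smul_eq_mul]
  rw [← Nat.cast_sum, ← Nat.cast_mul, Nat.cast_inj]
  have hfin : ∀ u : BP r d, Finite {μ : Fin r × Fin d → ℕ //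
      (∀ s, μ ((u.1 * g) s) = μ s) ∧ ∑ s, 1 * μ s = i} := by
    intro u
    apply Finite.of_injective (β := Fin r × Fin d → Fin (i + 1))
      (fun μ s => ⟨μ.1 s, by
        have h1 : 1 * μ.1 s ≤ ∑ s, 1 * μ.1 s :=
          Finset.single_le_sum (f := fun s => 1 * μ.1 s) (fun _ _ => Nat.zero_le _)
            (Finset.mem_univ s)
        rw [μ.2.2] at h1
        omega⟩)
    intro μ μ' h
    apply Subtype.ext
    funext s
    have := congrFun h s
    exact congrArg Fin.val this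
  rw [← Nat.card_sigma, ← Nat.card_congr (Equiv.subtypeProdEquivSigmaSubtype
    (fun (u : BP r d) (μ : Fin r × Fin d → ℕ) =>
      (∀ s, μ ((u.1 * g) s) = μ s) ∧ ∑ s, 1 * μ s = i)), ← Nat.card_prod]
  apply Nat.card_congr
  refine
    { toFun := fun p => (⟨(w p.1.2).1 * p.1.1.1 * g * (w p.1.2).1⁻¹ * g0⁻¹ * (w p.1.2).1, ?_⟩,
        ⟨ν p.1.2, ?_, ?_⟩)
      invFun := fun q => ⟨(⟨(w (fun s => srt q.2.1 (q.1.1 s))).1⁻¹ * q.1.1 *
          (w (fun s => srt q.2.1 (q.1.1 s))).1⁻¹ * g0 * (w (fun s => srt q.2.1 (q.1.1 s))).1 * g⁻¹,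
          ?_⟩, fun s => srt q.2.1 (q.1.1 s)), ?_, ?_⟩
      left_inv := ?_
      right_inv := ?_ }
  · intro s
    simp only [Equiv.Perm.mul_apply]
    rw [(w p.1.2).2, p.1.1.2, hg, hinv, hg0i, (w p.1.2).2, pai]
  · intro s
    exact (congrFun (hA p.1.1 p.1.2 p.2.1) s).symm
  · rw [← srt_sum]
    have h1 := p.2.2
    simp only [one_mul] at h1
    have h2 : ∑ s, srt (ν p.1.2) s = ∑ s, p.1.2 s := by
      rw [Finset.sum_congr rfl (fun s _ => hw p.1.2 s)]
      exact (Equiv.sum_comp (w p.1.2).1 (srt (ν p.1.2))).symm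
    exact h2.trans h1
  · intro s
    simp only [Equiv.Perm.mul_apply]
    rw [hinv, q.1.2, hinv, hg0', (w _).2, hgi, pai]
  · intro s
    exact hB q.1 q.2.1 q.2.2.1 s
  · simp only [one_mul]
    rw [Equiv.sum_comp q.1.1 (srt q.2.1), srt_sum]
    exact q.2.2.2
  · rintro ⟨⟨u, μ⟩, hp⟩
    have h1 := hC u μ hp.1
    apply Subtype.ext
    apply Prod.ext
    · apply Subtype.ext
      simp only
      rw [h1]
      group
    · exact h1
  · rintro ⟨n, ν', hq⟩
    have h1 : ν (fun s => srt ν' (n.1 s)) = ν' := huniq _ ν' n (fun s => rfl)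
    apply Prod.ext
    · apply Subtype.ext
      simp only
      group
    · apply Subtype.ext
      exact h1

end Pool.Agent.L7h35.BQ
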