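import Pool.Agent.L7h35.BQ.Hs

/-!
# Project BQ: S_SP, the standard monomials span
-/

set_option autoImplicit false

namespace Pool.Agent.L7h35.BQ

open MvPolynomial Finset
open Pool.Agent.L7h38.BQ

theorem decomp (n : ℕ) (p : MvPolynomial (Fin (n + 1)) ℚ) :
    ∃ (p0 : MvPolynomial (Fin n) ℚ) (p1 : MvPolynomial (Fin (n + 1)) ℚ),
      p = rename Fin.succ p0 + X 0 * p1 := by
  induction p using MvPolynomial.induction_on with
  | C a => exact ⟨C a, 0, by simp⟩
  | add p q hp hq =>
    obtain ⟨p0, p1, hp⟩ := hp
    obtain ⟨q0, q1, hq⟩ := hq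
    exact ⟨p0 + q0, p1 + q1, by rw [hp, hq, map_add]; ring⟩
  | mul_X p i hp =>
    obtain ⟨p0, p1, hp⟩ := hp
    refine Fin.cases ?_ (fun i => ?_) i
    · exact ⟨0, p, by rw [map_zero]; ring⟩
    · exact ⟨p0 * X i, p1 * X i.succ, by rw [hp, map_mul, rename_X]; ring⟩

theorem zero_notMem_map {n : ℕ} (A : Finset (Fin n)) : (0 : Fin (n + 1)) ∉ A.map (Fin.succEmb n) := by
  intro h
  obtain ⟨s, _, hs⟩ := Finset.mem_map.1 h
  exact Fin.succ_ne_zero s hs

theorem bat_of_eq {I : Type} [DecidableEq I] {n : ℕ} (β : Fin (n + 1) → I) (i : I) (h : β 0 = i) :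
    bat β i = insert 0 ((bat (β ∘ Fin.succ) i).map (Fin.succEmb n)) := by
  ext s
  refine Fin.cases ?_ (fun s => ?_) s
  · simp [bat, h]
  · simp only [bat, mem_filter, mem_univ, true_and, mem_insert, Function.comp_apply]
    constructor
    · intro hs
      right
      exact Finset.mem_map.2 ⟨s, by simpa using hs, rfl⟩
    · rintro (hs | hs)
      · exact absurd hs (Fin.succ_ne_zero s)
      · obtain ⟨t, ht, hts⟩ := Finset.mem_map.1 hs
        have : t = s := Fin.succ_injective _ hts
        subst this
        simpa using ht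

theorem bat_of_ne {I : Type} [DecidableEq I] {n : ℕ} (β : Fin (n + 1) → I) (i : I) (h : β 0 ≠ i) :
    bat β i = (bat (β ∘ Fin.succ) i).map (Fin.succEmb n) := by
  ext s
  refine Fin.cases ?_ (fun s => ?_) s
  · constructor
    · intro hs
      exact absurd (Finset.mem_filter.1 hs).2 h
    · intro hs
      exact absurd hs (zero_notMem_map _)
  · simp only [bat, mem_filter, mem_univ, true_and]
    constructor
    · intro hs
      exact Finset.mem_map.2 ⟨s, by simpa using hs, rfl⟩
    · intro hs
      obtain ⟨t, ht, hts⟩ := Finset.mem_map.1 hs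
      have : t = s := Fin.succ_injective _ hts
      subst this
      simpa using ht

/-- (a) -/
theorem hs_subset_mem {σ : Type} [DecidableEq σ] (Jd : Ideal (MvPolynomial σ ℚ)) (A : Finset σ)
    (κ : ℕ) (hJ : ∀ j, κ + 1 ≤ j + A.card → hs A j ∈ Jd) :
    ∀ (c : ℕ) (A' : Finset σ), A' ⊆ A → (A \ A').card = c → ∀ j, κ + 1 ≤ j + A'.card →
      hs A' j ∈ Jd := by
  intro c
  induction c with
  | zero =>
    intro A' hA' hc j hj
    have : A = A' := by
      apply Finset.Subset.antisymm _ hA'
      exact Finset.sdiff_eq_empty_iff_subset.1 (Finset.card_eq_zero.1 hc)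
    subst this
    exact hJ j hj
  | succ c ih =>
    intro A' hA' hc j hj
    obtain ⟨y, hy⟩ : (A \ A').Nonempty := Finset.card_pos.1 (by omega)
    obtain ⟨hyA, hyA'⟩ := Finset.mem_sdiff.1 hy
    have h1 : insert y A' ⊆ A := Finset.insert_subset hyA hA'
    have h2 : (A \ insert y A').card = c := by
      rw [Finset.sdiff_insert, Finset.card_erase_of_mem hy, hc]; rfl
    have h3 : (insert y A').card = A'.card + 1 := Finset.card_insert_of_notMem hyA'
    have h4 := ih (insert y A') h1 h2
    rcases j with _ | j
    · have := h4 0 (by omega)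
      rw [hs_zero] at this ⊢
      exact this
    · have h5 := h4 (j + 1) (by omega)
      have h6 := h4 j (by omega)
      rw [hs_insert A' y hyA' j] at h5
      have := Jd.sub_mem h5 (Jd.mul_mem_left (X y) h6)
      rwa [add_sub_cancel_right] at this

theorem hs_singleton {σ : Type} [DecidableEq σ] (y : σ) (j : ℕ) :
    hs ({y} : Finset σ) j = X y ^ j := by
  have e : ({y} : Finset σ) = insert y ∅ := rfl
  induction j with
  | zero => rw [hs_zero, pow_zero]
  | succ j ih => rw [e, hs_insert ∅ y (by simp) j, hs_empty _ (by omega), zero_add, ← e, ih,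
      pow_succ']

theorem hs_mem_J {I : Type} [DecidableEq I] {σ : Type} [Fintype σ] [DecidableEq σ] (β : σ → I)
    (κ : I → ℕ) (m : ℕ) (i : I) (j : ℕ) (h : κ i + 1 ≤ j + (bat β i).card) :
    hs (bat β i) j ∈ J β κ m :=
  Ideal.subset_span (Or.inr ⟨i, j, h, rfl⟩)

theorem esymm_mem_J {I : Type} [DecidableEq I] {σ : Type} [Fintype σ] [DecidableEq σ] (β : σ → I)
    (κ : I → ℕ) (m : ℕ) (j : ℕ) (h : Fintype.card σ + 1 ≤ j + m) :
    esymm σ ℚ j ∈ J β κ m :=
  Ideal.subset_span (Or.inl ⟨j, h, rfl⟩)

theorem pow_mem_J {I : Type} [DecidableEq I] {n : ℕ} (β : Fin (n + 1) → I) (κ : I → ℕ) (m : ℕ) :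
    (X 0 : MvPolynomial (Fin (n + 1)) ℚ) ^ (κ (β 0)) ∈ J β κ m := by
  have h := hs_subset_mem (J β κ m) (bat β (β 0)) (κ (β 0))
    (fun j hj => hs_mem_J β κ m (β 0) j hj) _ {0} (by simp [bat]) rfl (κ (β 0)) (by simp)
  rwa [hs_singleton] at h

/-- (b) -/
theorem step_b {I : Type} [DecidableEq I] {n : ℕ} (β : Fin (n + 1) → I) (κ : I → ℕ) (m i : ℕ)
    (hi : i < κ (β 0)) (q : MvPolynomial (Fin n) ℚ)
    (hq : q ∈ J (β ∘ Fin.succ) (Function.update κ (β 0) (κ (β 0) - 1))
      (if i < m then m - 1 else m)) :
    (X 0 : MvPolynomial (Fin (n + 1)) ℚ) ^ i * rename Fin.succ q ∈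
      Ideal.span {(X 0 : MvPolynomial (Fin (n + 1)) ℚ) ^ (i + 1)} ⊔ J β κ m := by
  set K : Ideal (MvPolynomial (Fin (n + 1)) ℚ) :=
    Ideal.span {(X 0 : MvPolynomial (Fin (n + 1)) ℚ) ^ (i + 1)} ⊔ J β κ m with hK
  have hz : ∀ r : MvPolynomial (Fin (n + 1)) ℚ, X 0 ^ (i + 1) * r ∈ K := fun r =>
    Ideal.mem_sup_left (Ideal.mul_mem_right _ _ (Ideal.mem_span_singleton_self _))
  have hJ : ∀ r : MvPolynomial (Fin (n + 1)) ℚ, r ∈ J β κ m → r ∈ K := fun r hr =>
    Ideal.mem_sup_right hr
  refine Submodule.span_induction (p := fun q _ => X 0 ^ i * rename Fin.succ q ∈ K) ?_ ?_ ?_ ?_ hq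
  · rintro q (⟨j, hj, rfl⟩ | ⟨i', j, hj, rfl⟩)
    · -- the elementary symmetric polynomials
      rw [Fintype.card_fin] at hj
      by_cases h1 : n + 2 ≤ j + m
      · rcases j with _ | j
        · have h2 : esymm (Fin (n + 1)) ℚ 0 ∈ J β κ m :=
            esymm_mem_J β κ m 0 (by rw [Fintype.card_fin]; omega)
          rw [esymm_zero] at h2 ⊢
          rw [map_one, mul_one]
          have := K.mul_mem_left (X 0 ^ i) (hJ 1 h2)
          rwa [mul_one] at this
        · have h2 : esymm (Fin (n + 1)) ℚ (j + 1) ∈ J β κ m :=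
            esymm_mem_J β κ m (j + 1) (by rw [Fintype.card_fin]; omega)
          rw [esymm_succ] at h2
          have h3 := K.mul_mem_left (X 0 ^ i) (hJ _ h2)
          have h4 := hz (rename Fin.succ (esymm (Fin n) ℚ j))
          have h5 := K.sub_mem h3 h4
          have h6 : X 0 ^ i * (rename Fin.succ (esymm (Fin n) ℚ (j + 1)) +
              X 0 * rename Fin.succ (esymm (Fin n) ℚ j)) -
              X 0 ^ (i + 1) * rename Fin.succ (esymm (Fin n) ℚ j) =
              (X 0 : MvPolynomial (Fin (n + 1)) ℚ) ^ i *
                rename Fin.succ (esymm (Fin n) ℚ (j + 1)) := by ring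
          rwa [h6] at h5
      · -- now m ≤ i and j + m = n + 1
        have hmi : m ≤ i := by
          by_contra h
          rw [if_pos (by omega)] at hj
          omega
        rw [if_neg (by omega)] at hj
        have hjm : j + m = n + 1 := by omega
        have key : ∀ l, l ≤ m → (X 0 : MvPolynomial (Fin (n + 1)) ℚ) ^ l *
            rename Fin.succ (esymm (Fin n) ℚ (n + 1 - l)) ∈ J β κ m := by
          intro l
          induction l with
          | zero =>
            intro _
            have : esymm (Fin n) ℚ (n + 1 - 0) = 0 := by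
              rw [esymm, Finset.powersetCard_eq_empty.2]
              · simp
              · simp
            rw [this, map_zero, mul_zero]
            exact Ideal.zero_mem _
          | succ l ihl =>
            intro hl
            have h2 : esymm (Fin (n + 1)) ℚ (n + 1 - l) ∈ J β κ m :=
              esymm_mem_J β κ m _ (by rw [Fintype.card_fin]; omega)
            have h3 : n + 1 - l = (n - l) + 1 := by omega
            have h3' : n + 1 - (l + 1) = n - l := by omega
            have h4 := ihl (by omega)
            rw [h3] at h4 h2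
            rw [esymm_succ] at h2
            rw [h3']
            have h5 := (J β κ m).sub_mem ((J β κ m).mul_mem_left (X 0 ^ l) h2) h4
            have h6 : X 0 ^ l * (rename Fin.succ (esymm (Fin n) ℚ (n - l + 1)) +
                X 0 * rename Fin.succ (esymm (Fin n) ℚ (n - l))) -
                X 0 ^ l * rename Fin.succ (esymm (Fin n) ℚ (n - l + 1)) =
                (X 0 : MvPolynomial (Fin (n + 1)) ℚ) ^ (l + 1) *
                  rename Fin.succ (esymm (Fin n) ℚ (n - l)) := by ring
            rwa [h6] at h5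
        have h7 := key m le_rfl
        have h8 : n + 1 - m = j := by omega
        rw [h8] at h7
        have h9 := (J β κ m).mul_mem_left (X 0 ^ (i - m)) h7
        rw [← mul_assoc, ← pow_add, Nat.sub_add_cancel hmi] at h9
        exact hJ _ h9
    · -- the complete homogeneous polynomials
      by_cases h0 : β 0 = i'
      · subst h0
        rw [Function.update_self] at hj
        have hb := bat_of_eq β (β 0) rfl
        have hcard : (bat β (β 0)).card = (bat (β ∘ Fin.succ) (β 0)).card + 1 := by
          rw [hb, Finset.card_insert_of_notMem (zero_notMem_map _), Finset.card_map]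
        have hren := rename_hs (Fin.succEmb n) (bat (β ∘ Fin.succ) (β 0))
        rcases j with _ | j
        · have h2 := hs_mem_J β κ m (β 0) 0 (by omega)
          rw [hs_zero] at h2 ⊢
          rw [map_one, mul_one]
          have := K.mul_mem_left (X 0 ^ i) (hJ 1 h2)
          rwa [mul_one] at this
        · have h2 := hs_mem_J β κ m (β 0) (j + 1) (by omega)
          have h3 : hs (bat β (β 0)) (j + 1) =
              rename Fin.succ (hs (bat (β ∘ Fin.succ) (β 0)) (j + 1)) +
                X 0 * hs (bat β (β 0)) j := by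
            have := hs_insert _ 0 (zero_notMem_map (bat (β ∘ Fin.succ) (β 0))) j
            rw [← hb, ← hren] at this
            exact this
          rw [h3] at h2
          have h4 := K.sub_mem (K.mul_mem_left (X 0 ^ i) (hJ _ h2)) (hz (hs (bat β (β 0)) j))
          have h6 : X 0 ^ i * (rename Fin.succ (hs (bat (β ∘ Fin.succ) (β 0)) (j + 1)) +
                X 0 * hs (bat β (β 0)) j) - X 0 ^ (i + 1) * hs (bat β (β 0)) j =
                (X 0 : MvPolynomial (Fin (n + 1)) ℚ) ^ i *
                  rename Fin.succ (hs (bat (β ∘ Fin.succ) (β 0)) (j + 1)) := by ring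
          rwa [h6] at h4
      · rw [Function.update_of_ne (Ne.symm h0)] at hj
        have hb := bat_of_ne β i' h0
        have hcard : (bat β i').card = (bat (β ∘ Fin.succ) i').card := by
          rw [hb, Finset.card_map]
        have hren := rename_hs (Fin.succEmb n) (bat (β ∘ Fin.succ) i') j
        rw [← hb] at hren
        have h2 := hs_mem_J β κ m i' j (by omega)
        rw [← hren] at h2
        exact K.mul_mem_left _ (hJ _ h2)
  · rw [map_zero, mul_zero]
    exact Ideal.zero_mem _
  · intro x y _ _ hx hy
    rw [map_add, mul_add]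
    exact Ideal.add_mem _ hx hy
  · intro a x _ hx
    rw [smul_eq_mul, map_mul]
    have := K.mul_mem_left (rename Fin.succ a) hx
    have e : rename Fin.succ a * (X 0 ^ i * rename Fin.succ x) =
      (X 0 : MvPolynomial (Fin (n + 1)) ℚ) ^ i * (rename Fin.succ a * rename Fin.succ x) := by ring
    rwa [e] at this

theorem monomial_cons (n i : ℕ) (b : Fin n → ℕ) :
    (X 0 : MvPolynomial (Fin (n + 1)) ℚ) ^ i *
      rename Fin.succ (monomial (Finsupp.equivFunOnFinite.symm b) (1 : ℚ)) =
      monomial (Finsupp.equivFunOnFinite.symm (Fin.cons i b : Fin (n + 1) → ℕ)) 1 := by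
  rw [X_pow_eq_monomial, rename_monomial, monomial_mul, one_mul]
  have e : (Finsupp.single 0 i + Finsupp.mapDomain Fin.succ (Finsupp.equivFunOnFinite.symm b) :
      Fin (n + 1) →₀ ℕ) = Finsupp.equivFunOnFinite.symm (Fin.cons i b : Fin (n + 1) → ℕ) := by
    ext s
    refine Fin.cases ?_ (fun s => ?_) s
    · rw [Finsupp.add_apply, Finsupp.mapDomain_of_notMem_range]
      · simp
      · rintro ⟨t, ht⟩
        exact Fin.succ_ne_zero t ht
    · rw [Finsupp.add_apply, Finsupp.mapDomain_apply (Fin.succ_injective n)]
      simp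
  rw [e]

theorem s_SP : S_SP := by
  intro I _ n
  induction n with
  | zero =>
    intro β κ m p
    by_cases hm : m = 0
    · apply Submodule.mem_sup_left
      rw [MvPolynomial.eq_C_of_isEmpty p]
      have : (C (coeff 0 p) : MvPolynomial (Fin 0) ℚ) =
          coeff 0 p • monomial (Finsupp.equivFunOnFinite.symm (fun _ : Fin 0 => 0)) (1 : ℚ) := by
        rw [smul_monomial, smul_eq_mul, mul_one, C_apply]
        have e : (0 : Fin 0 →₀ ℕ) = Finsupp.equivFunOnFinite.symm (fun _ : Fin 0 => 0) :=
          Subsingleton.elim _ _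
        rw [← e]
      rw [this]
      apply Submodule.smul_mem
      apply Submodule.subset_span
      exact ⟨fun _ => 0, hm, rfl⟩
    · apply Submodule.mem_sup_right
      have h1 : esymm (Fin 0) ℚ 0 ∈ J β κ m :=
        esymm_mem_J β κ m 0 (by rw [Fintype.card_fin]; omega)
      rw [esymm_zero] at h1
      have := (J β κ m).mul_mem_left p h1
      rwa [mul_one] at this
  | succ n ih =>
    intro β κ m p
    set T := Submodule.span ℚ {q : MvPolynomial (Fin (n + 1)) ℚ | ∃ b : Fin (n + 1) → ℕ,
      St (n + 1) β κ m b ∧ q = monomial (Finsupp.equivFunOnFinite.symm b) 1} ⊔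
        (J β κ m).restrictScalars ℚ with hT
    have hJT : ∀ r ∈ J β κ m, r ∈ T := fun r hr => Submodule.mem_sup_right hr
    have main : ∀ c i, i + c = κ (β 0) → ∀ p : MvPolynomial (Fin (n + 1)) ℚ, X 0 ^ i * p ∈ T := by
      intro c
      induction c with
      | zero =>
        intro i hi p
        apply hJT
        rw [← hi.symm.trans (Nat.add_zero i).symm.symm]
        exact Ideal.mul_mem_right _ _ (pow_mem_J β κ m)
      | succ c ihc =>
        intro i hi p
        obtain ⟨p0, p1, hp⟩ := decomp n p
        have h0 := ih (β ∘ Fin.succ) (Function.update κ (β 0) (κ (β 0) - 1))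
          (if i < m then m - 1 else m) p0
        obtain ⟨w, hw, q, hq, hwq⟩ := Submodule.mem_sup.1 h0
        have e : X 0 ^ i * p = X 0 ^ i * rename Fin.succ w + X 0 ^ i * rename Fin.succ q +
            X 0 ^ (i + 1) * p1 := by
          rw [hp, ← hwq, map_add]; ring
        rw [e]
        apply Submodule.add_mem _ (Submodule.add_mem _ ?_ ?_) (ihc (i + 1) (by omega) p1)
        · refine Submodule.span_induction (p := fun w _ => X 0 ^ i * rename Fin.succ w ∈ T)
            ?_ ?_ ?_ ?_ hw
          · rintro w ⟨b, hb, rfl⟩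
            apply Submodule.mem_sup_left
            apply Submodule.subset_span
            refine ⟨Fin.cons i b, ⟨?_, ?_⟩, monomial_cons n i b⟩
            · rw [Fin.cons_zero]; omega
            · have : (Fin.cons i b : Fin (n + 1) → ℕ) ∘ Fin.succ = b := by
                funext s; simp
              rw [this, Fin.cons_zero]
              exact hb
          · rw [map_zero, mul_zero]; exact Submodule.zero_mem _
          · intro x y _ _ hx hy
            rw [map_add, mul_add]
            exact Submodule.add_mem _ hx hy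
          · intro a x _ hx
            rw [map_smul, mul_smul_comm]
            exact Submodule.smul_mem _ _ hx
        · have h1 := step_b β κ m i (by omega) q hq
          obtain ⟨u, hu, v, hv, huv⟩ := Submodule.mem_sup.1 h1
          obtain ⟨r, hr⟩ := Ideal.mem_span_singleton'.1 hu
          rw [← huv, ← hr, mul_comm]
          exact Submodule.add_mem _ (ihc (i + 1) (by omega) r) (hJT v hv)
    have := main (κ (β 0)) 0 (by omega) p
    rwa [pow_zero, one_mul] at this

end Pool.Agent.L7h35.BQ
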